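import Pool.Agent.Helper29.BL.GoalsA
import Pool.Agent.Helper29.BL.GoalsC
import Pool.Agent.Helper29.BL.PS
import Pool.Agent.Helper29.BL.RH

/-!
Packet ND of project BL (MP_a41896_nt): nondegenerate points exist.
-/

namespace Pool.Agent.Helper5.BL

open WeierstrassCurve Height Height.AdmissibleAbsValues Polynomial Pool.Agent.Helper29.BL
open scoped Polynomial.Bivariate

/-- Height of the vector of the coefficients of `F(a, Y)`. -/
theorem height_vec {K : Type} [Field K] [AdmissibleAbsValues K] {d : ℕ} {F : K[X][Y]}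
    (hF : BD d F) (h0 : F ≠ 0) {a : K}
    (ha : (fun j : Fin (d + 1) => (F.coeff j).eval a) ≠ 0) :
    logHeight (fun j : Fin (d + 1) => (F.coeff j).eval a) ≤
      hp d F + d * logHeight₁ a + totalWeight K * Real.log (d + 1) := by
  have hd1 : (1 : ℝ) ≤ d + 1 := by linarith [Nat.cast_nonneg (α := ℝ) d]
  have hloc : ∀ v : AbsoluteValue K ℝ, (⨆ j : Fin (d + 1), v ((F.coeff j).eval a)) ≤
      cst v (d + 1) * (cmax d F v * Mv v a ^ d) := by
    intro v
    refine ciSup_le fun j => ?_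
    have hs : (F.coeff j).eval a =
        ∑ i ∈ Finset.range (d + 1), (F.coeff j).coeff i * a ^ i := by
      apply eval_eq_sum_range'
      exact Nat.lt_succ_of_le (hF.2 j)
    rw [hs]
    refine abv_sum_le v _ _ ?_ (fun i hi => ?_) ?_
    · exact mul_nonneg (cmax_nonneg d F v) (pow_nonneg (Mv_pos v a).le d)
    · rw [v.map_mul, v.map_pow]
      have hi' : i ≤ d := by
        rw [Finset.mem_range] at hi
        omega
      have h1 : v ((F.coeff j).coeff i) ≤ cmax d F v := by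
        have := le_ciSup (f := fun ij : Fin (d + 1) × Fin (d + 1) =>
          v ((F.coeff ij.2).coeff ij.1)) (Set.finite_range _).bddAbove
          ((⟨i, Nat.lt_succ_of_le hi'⟩ : Fin (d + 1)), j)
        exact this
      have h2 : v a ^ i ≤ Mv v a ^ d :=
        (pow_le_pow_left₀ (v.nonneg a) (le_Mv v a) i).trans
          (pow_le_pow_right₀ (one_le_Mv v a) hi')
      exact mul_le_mul h1 h2 (pow_nonneg (v.nonneg a) i) (cmax_nonneg d F v)
    · rw [Finset.card_range]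
      push_cast
      exact le_rfl
  have hlog : ∀ v : AbsoluteValue K ℝ,
      Real.log (⨆ j : Fin (d + 1), v ((F.coeff j).eval a)) ≤
      Real.log (cst v (d + 1)) + (Real.log (cmax d F v) + d * Real.log (Mv v a)) := by
    intro v
    rw [← Real.log_pow, ← Real.log_mul (cmax_pos hF h0 v).ne' (pow_pos (Mv_pos v a) d).ne',
      ← Real.log_mul (cst_pos v hd1).ne'
        (mul_pos (cmax_pos hF h0 v) (pow_pos (Mv_pos v a) d)).ne']
    exact Real.log_le_log (iSup_abv_pos v ha) (hloc v)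
  have h := PS_mono (FS_log_iSup ha) ((FS_log_cst (d + 1)).add
    ((FS_log_cmax hF h0).add ((FS_log_Mv a).const_mul d))) hlog
  rw [PS_log_iSup ha, PS_add (FS_log_cst (d + 1)) ((FS_log_cmax hF h0).add
    ((FS_log_Mv a).const_mul d)), PS_add (FS_log_cmax hF h0) ((FS_log_Mv a).const_mul d),
    PS_const_mul, PS_log_Mv, PS_log_cmax hF h0] at h
  have h4 := PS_log_cst (K := K) hd1
  linarith

/-- The height of a root `b` of `F(a, Y)`. -/
theorem height_root (hRH : RH) {K : Type} [Field K] [NumberField K] {d : ℕ} {F : K[X][Y]}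
    (hF : BD d F) (h0 : F ≠ 0) : ∃ C : ℝ, ∀ a b : K, (∃ j, (F.coeff j).eval a ≠ 0) →
      ev F (a, b) = 0 → logHeight₁ b ≤ d * logHeight₁ a + C := by
  obtain ⟨C₁, hC₁⟩ := hRH K d
  refine ⟨hp d F + totalWeight K * Real.log (d + 1) + C₁, fun a b hj hab => ?_⟩
  set p : K[X] := F.map (evalRingHom a) with hpd
  have hcoeff : ∀ j, p.coeff j = (F.coeff j).eval a := by
    intro j
    rw [hpd, coeff_map]
    rfl
  have hp0 : p ≠ 0 := by
    obtain ⟨j, hj⟩ := hj
    intro h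
    apply hj
    rw [← hcoeff, h, coeff_zero]
  have hdeg : p.natDegree ≤ d := (natDegree_map_le).trans hF.1
  have hev : p.eval b = 0 := by
    rw [hpd, map_evalRingHom_eval]
    exact hab
  have h1 := hC₁ p b hp0 hdeg hev
  have hvec : (fun j : Fin (d + 1) => p.coeff j) =
      fun j : Fin (d + 1) => (F.coeff j).eval a := by
    funext j
    exact hcoeff j
  have hne : (fun j : Fin (d + 1) => (F.coeff j).eval a) ≠ 0 := by
    intro h
    obtain ⟨j, hj⟩ := hj
    by_cases hjd : j ≤ d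
    · exact hj (congrFun h ⟨j, Nat.lt_succ_of_le hjd⟩)
    · apply hj
      rw [coeff_eq_zero_of_natDegree_lt (lt_of_le_of_lt hF.1 (by omega)), eval_zero]
  rw [hvec] at h1
  have h2 := height_vec hF h0 hne
  linarith

/-- Multiples of a point of infinite order are different. -/
theorem smul_inj {G : Type} [AddGroup G] {P : G} (h : ∀ n : ℕ, 0 < n → n • P ≠ 0) {m n : ℕ}
    (hmn : m • P = n • P) : m = n := by
  by_contra hne
  rcases lt_or_gt_of_ne hne with h' | h'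
  · refine h (n - m) (by omega) ?_
    have : n • P = (n - m) • P + m • P := by rw [← add_nsmul]; congr 1; omega
    rw [← hmn] at this
    exact add_eq_right.mp this.symm
  · refine h (m - n) (by omega) ?_
    have : m • P = (m - n) • P + n • P := by rw [← add_nsmul]; congr 1; omega
    rw [hmn] at this
    exact add_eq_right.mp this.symm

/-- A nonzero polynomial vanishes at `x(nP)` for finitely many `n` only. -/
theorem finite_roots (hx : XEQ) {K : Type} [Field K] [DecidableEq K] {W : Affine K}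
    {P : W.Point} (h : ∀ n : ℕ, 0 < n → n • P ≠ 0) {f : K[X]} (hf : f ≠ 0) :
    {n : ℕ | 0 < n ∧ f.eval (xc (n • P)) = 0}.Finite := by
  classical
  have hfib : ∀ x : K, {n : ℕ | 0 < n ∧ xc (n • P) = x}.Finite := by
    intro x
    by_cases hex : ∃ n₀ : ℕ, 0 < n₀ ∧ xc (n₀ • P) = x
    · obtain ⟨n₀, hn₀, hx₀⟩ := hex
      refine (Set.finite_singleton n₀).subset ?_
      rintro n ⟨hn, hxn⟩
      have := ((hx K W).1 (n • P) (n₀ • P) (h n hn) (h n₀ hn₀)).mp (hxn.trans hx₀.symm)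
      rcases this with h1 | h1
      · exact smul_inj h h1
      · exfalso
        refine h (n + n₀) (by omega) ?_
        rw [add_nsmul, h1, neg_add_cancel]
    · refine Set.finite_empty.subset ?_
      rintro n ⟨hn, hxn⟩
      exact hex ⟨n, hn, hxn⟩
  have hu : {n : ℕ | 0 < n ∧ f.eval (xc (n • P)) = 0} ⊆
      ⋃ x ∈ (f.roots.toFinset : Set K), {n : ℕ | 0 < n ∧ xc (n • P) = x} := by
    rintro n ⟨hn, hfn⟩
    simp only [Set.mem_iUnion]
    refine ⟨xc (n • P), ?_, hn, rfl⟩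
    rw [Finset.mem_coe, Multiset.mem_toFinset, mem_roots hf]
    exact hfn
  exact ((Finset.finite_toSet _).biUnion fun x _ => hfib x).subset hu

theorem nd_of : CAN → QSN → NOR → RH → XEQ → ND := by
  intro hCAN hQSN hNOR hRH hXEQ K _ _ _ W₁ W₂ _ _ d z hz
  obtain ⟨H₁, c₁, hH₁⟩ := hCAN K W₁
  obtain ⟨H₂, c₂, hH₂⟩ := hCAN K W₂
  obtain ⟨-, -, hs₁, -⟩ := hQSN W₁.Point H₁ hH₁.quad
  obtain ⟨-, -, hs₂, -⟩ := hQSN W₂.Point H₂ hH₂.quad
  have hpos : 0 < H₂ z.2 := by
    refine lt_of_le_of_ne (hH₂.quad.nonneg _) fun h => ?_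
    obtain ⟨n, hn, hn0⟩ := ((hNOR K W₂).2 H₂ c₂ hH₂).2.1 z.2 h.symm
    exact hz.2 n hn hn0
  obtain ⟨b, hb1, hb⟩ : ∃ b : ℕ, 1 ≤ b ∧ (d : ℝ) * H₁ z.1 + 1 ≤ (b : ℝ) ^ 2 * H₂ z.2 := by
    obtain ⟨b, hb⟩ := exists_nat_ge (((d : ℝ) * H₁ z.1 + 1) / H₂ z.2 + 1)
    refine ⟨b, ?_, ?_⟩
    · have h1 : 0 ≤ ((d : ℝ) * H₁ z.1 + 1) / H₂ z.2 := by
        have := hH₁.quad.nonneg z.1
        positivity
      have : (1 : ℝ) ≤ b := by linarith
      exact_mod_cast this
    · have h1 : 0 ≤ ((d : ℝ) * H₁ z.1 + 1) / H₂ z.2 := by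
        have := hH₁.quad.nonneg z.1
        positivity
      have h2 : ((d : ℝ) * H₁ z.1 + 1) / H₂ z.2 ≤ (b : ℝ) ^ 2 := by nlinarith
      rwa [div_le_iff₀ hpos] at h2
  refine ⟨b, hb1, ?_⟩
  rintro ⟨k, hk1, -, F, hF0, hF, hFz⟩
  obtain ⟨C, hC⟩ := height_root hRH hF hF0
  obtain ⟨j, hj⟩ : ∃ j, F.coeff j ≠ 0 := by
    by_contra h
    push Not at h
    exact hF0 (Polynomial.ext fun j => by rw [h j, coeff_zero])
  -- bad multiples
  have hfin := finite_roots hXEQ hz.1 hj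
  obtain ⟨N, hN⟩ := hfin.bddAbove
  -- a large good multiple
  obtain ⟨m, hm⟩ := exists_nat_gt (C + c₂ + d * c₁)
  obtain ⟨n, hnN, hnm, hn1⟩ : ∃ n : ℕ, N < n ∧ m ≤ n ∧ 1 ≤ n :=
    ⟨max (N + 1) (max m 1), by omega, by omega, by omega⟩
  have hgood : (F.coeff j).eval (xc ((n * k) • z.1)) ≠ 0 := by
    intro h
    have hmem : n * k ∈ {n : ℕ | 0 < n ∧ (F.coeff j).eval (xc (n • z.1)) = 0} :=
      ⟨Nat.mul_pos (by omega) (by omega), h⟩
    have h1 := hN hmem
    have h2 : n ≤ n * k := Nat.le_mul_of_pos_right n (by omega)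
    omega
  have hev := hFz n hn1
  have hkap : kap ((n * k) • (z.1, b • z.2)) =
      (xc ((n * k) • z.1), xc ((n * k) • (b • z.2))) := rfl
  rw [hkap] at hev
  have hroot := hC _ _ ⟨j, hgood⟩ hev
  have e1 := hs₁ ((n * k : ℕ) : ℤ) z.1
  have e2 := hs₂ ((n * k : ℕ) : ℤ) (b • z.2)
  have e3 := hs₂ (b : ℤ) z.2
  simp only [natCast_zsmul] at e1 e2 e3
  have n1 := abs_le.mp (hH₁.near ((n * k) • z.1))
  have n2 := abs_le.mp (hH₂.near ((n * k) • (b • z.2)))
  rw [e1] at n1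
  rw [e2, e3] at n2
  unfold hx at n1 n2
  have hd0 : (0 : ℝ) ≤ d := Nat.cast_nonneg d
  have i1 : (d : ℝ) * logHeight₁ (xc ((n * k) • z.1)) ≤
      d * ((((n * k : ℕ) : ℤ) : ℝ) ^ 2 * H₁ z.1 + c₁) :=
    mul_le_mul_of_nonneg_left (by linarith [n1.1]) hd0
  have hq : (1 : ℝ) ≤ (((n * k : ℕ) : ℤ) : ℝ) := by
    have : 1 ≤ n * k := Nat.mul_pos (by omega) (by omega)
    exact_mod_cast this
  have hq2 : (m : ℝ) ≤ (((n * k : ℕ) : ℤ) : ℝ) := by
    have : m ≤ n * k := hnm.trans (Nat.le_mul_of_pos_right n (by omega))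
    exact_mod_cast this
  have hsq : (((n * k : ℕ) : ℤ) : ℝ) ≤ (((n * k : ℕ) : ℤ) : ℝ) ^ 2 := by nlinarith
  have i2 : (((n * k : ℕ) : ℤ) : ℝ) ^ 2 * ((d : ℝ) * H₁ z.1 + 1) ≤
      (((n * k : ℕ) : ℤ) : ℝ) ^ 2 * ((((b : ℤ) : ℝ)) ^ 2 * H₂ z.2) :=
    mul_le_mul_of_nonneg_left (by simpa using hb) (by positivity)
  nlinarith [n2.2]

end Pool.Agent.Helper5.BL
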