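import Pool.Agent.Helper29.BL.GoalsF
import Pool.Agent.Helper5.BL.ND
import Pool.Agent.Helper85.BL.EL

/-!
Packet NDg of project BL (MP_a41896_nt), second round: nondegenerate points exist.
-/

namespace Pool.Agent.Helper5.BL

open WeierstrassCurve Height Height.AdmissibleAbsValues Polynomial Pool.Agent.Helper29.BL
open scoped Polynomial.Bivariate

/-- A large multiple of `z` which is a zero of `F`, with the height bound for the second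
coordinate. -/
theorem mult_bound (hRH : RH) (hXEQ : XEQ) {K : Type} [Field K] [NumberField K] [DecidableEq K]
    {W₁ W₂ : Affine K} {H₁ : W₁.Point → ℝ} {H₂ : W₂.Point → ℝ} {c₀ : ℝ} {e₁ e₂ : ℕ}
    (h₁ : GH W₁ H₁ c₀ e₁) (h₂ : GH W₂ H₂ c₀ e₂) {d : ℕ} {F : K[X][Y]} (hF : BD d F) (hF0 : F ≠ 0)
    (P : W₁.Point) (Q : W₂.Point) (hP : ∀ n : ℕ, 0 < n → n • P ≠ 0) {k : ℕ} (hk1 : 1 ≤ k)
    (hFz : ∀ n : ℕ, 1 ≤ n → ev F (xc ((n * k) • P), xc ((n * k) • Q)) = 0) :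
    ∃ C : ℝ, ∀ m : ℕ, ∃ N : ℕ, m ≤ N ∧ 1 ≤ N ∧
      (N : ℝ) ^ e₂ * H₂ Q ≤ d * ((N : ℝ) ^ e₁ * H₁ P) + C := by
  obtain ⟨C, hC⟩ := height_root hRH hF hF0
  obtain ⟨j, hj⟩ : ∃ j, F.coeff j ≠ 0 := by
    by_contra h
    push Not at h
    exact hF0 (Polynomial.ext fun j => by rw [h j, coeff_zero])
  have hfin := finite_roots hXEQ hP hj
  obtain ⟨N, hN⟩ := hfin.bddAbove
  refine ⟨C + c₀ + d * c₀, fun m => ?_⟩
  obtain ⟨n, hnN, hnm, hn1⟩ : ∃ n : ℕ, N < n ∧ m ≤ n ∧ 1 ≤ n :=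
    ⟨max (N + 1) (max m 1), by omega, by omega, by omega⟩
  have hnk : 1 ≤ n * k := Nat.mul_pos (by omega) (by omega)
  have hnk2 : n ≤ n * k := Nat.le_mul_of_pos_right n (by omega)
  have hgood : (F.coeff j).eval (xc ((n * k) • P)) ≠ 0 := by
    intro h
    have hmem : n * k ∈ {n : ℕ | 0 < n ∧ (F.coeff j).eval (xc (n • P)) = 0} := ⟨hnk, h⟩
    have h1 := hN hmem
    omega
  refine ⟨n * k, hnm.trans hnk2, hnk, ?_⟩
  have hroot := hC _ _ ⟨j, hgood⟩ (hFz n hn1)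
  have n1 := abs_le.mp (h₁.near ((n * k) • P))
  have n2 := abs_le.mp (h₂.near ((n * k) • Q))
  rw [h₁.mul] at n1
  rw [h₂.mul] at n2
  unfold hx at n1 n2
  have hd0 : (0 : ℝ) ≤ d := Nat.cast_nonneg d
  have i1 : (d : ℝ) * logHeight₁ (xc ((n * k) • P)) ≤
      d * (((n * k : ℕ) : ℝ) ^ e₁ * H₁ P + c₀) :=
    mul_le_mul_of_nonneg_left (by linarith [n1.1]) hd0
  linarith [n2.2]

theorem ndg_of : NORg → RH → XEQ → NDg := by
  intro hNOR hRH hXEQ K _ _ _ W₁ W₂ H₁ H₂ c₀ e₁ e₂ h₁ h₂ d z hz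
  have hpos₁ : 0 < H₁ z.1 := by
    refine lt_of_le_of_ne (h₁.nonneg _) fun h => ?_
    obtain ⟨n, hn, hn0⟩ := ((hNOR K W₁ H₁ c₀ e₁ h₁).2 z.1).mp h.symm
    exact hz.1 n hn hn0
  have hpos₂ : 0 < H₂ z.2 := by
    refine lt_of_le_of_ne (h₂.nonneg _) fun h => ?_
    obtain ⟨n, hn, hn0⟩ := ((hNOR K W₂ H₂ c₀ e₂ h₂).2 z.2).mp h.symm
    exact hz.2 n hn hn0
  obtain ⟨b, hb1, hb⟩ : ∃ b : ℕ, 1 ≤ b ∧ (d : ℝ) * H₁ z.1 + 1 ≤ (b : ℝ) ^ e₂ * H₂ z.2 := by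
    obtain ⟨b, hb⟩ := exists_nat_ge (((d : ℝ) * H₁ z.1 + 1) / H₂ z.2 + 1)
    have h1 : 0 ≤ ((d : ℝ) * H₁ z.1 + 1) / H₂ z.2 := by positivity
    have hb1 : (1 : ℝ) ≤ b := by linarith
    refine ⟨b, by exact_mod_cast hb1, ?_⟩
    have h3 : (b : ℝ) ≤ (b : ℝ) ^ e₂ := le_self_pow₀ hb1 (by have := h₂.exp_pos; omega)
    have h2 : ((d : ℝ) * H₁ z.1 + 1) / H₂ z.2 ≤ (b : ℝ) ^ e₂ := by linarith
    rwa [div_le_iff₀ hpos₂] at h2
  refine ⟨b, hb1, ?_⟩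
  rintro ⟨k, hk1, -, F, hF0, hF, hFz⟩
  have hbQ : ∀ n : ℕ, 0 < n → n • (b • z.2) ≠ 0 := by
    intro n hn h
    rw [← mul_nsmul'] at h
    exact hz.2 (n * b) (Nat.mul_pos hn (by omega)) h
  have hd0 : (0 : ℝ) ≤ d := Nat.cast_nonneg d
  have hQ : H₂ (b • z.2) = (b : ℝ) ^ e₂ * H₂ z.2 := h₂.mul b z.2
  rcases le_or_gt e₁ e₂ with he | he
  · -- the first inequality
    obtain ⟨C, hC⟩ := mult_bound hRH hXEQ h₁ h₂ hF hF0 z.1 (b • z.2) hz.1 hk1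
      (fun n hn => hFz n hn)
    obtain ⟨m, hm⟩ := exists_nat_gt C
    obtain ⟨N, hmN, hN1, hN⟩ := hC m
    rw [hQ] at hN
    have hN1' : (1 : ℝ) ≤ N := by exact_mod_cast hN1
    have hmN' : (m : ℝ) ≤ N := by exact_mod_cast hmN
    have hp : (N : ℝ) ≤ (N : ℝ) ^ e₁ := le_self_pow₀ hN1' (by have := h₁.exp_pos; omega)
    have hp2 : (N : ℝ) ^ e₁ ≤ (N : ℝ) ^ e₂ := pow_le_pow_right₀ hN1' he
    have i2 : (N : ℝ) ^ e₁ * ((d : ℝ) * H₁ z.1 + 1) ≤ (N : ℝ) ^ e₂ * ((b : ℝ) ^ e₂ * H₂ z.2) :=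
      mul_le_mul hp2 hb (by positivity) (by positivity)
    nlinarith
  · -- the second inequality
    have hFs : BD d (Bivariate.swap F) := Helper85.BL.swap_BD hF
    have hFs0 : Bivariate.swap F ≠ 0 := by
      intro h
      apply hF0
      have := congrArg Bivariate.swap h
      rwa [Bivariate.swap_swap_apply, map_zero] at this
    obtain ⟨C, hC⟩ := mult_bound hRH hXEQ h₂ h₁ hFs hFs0 (b • z.2) z.1 hbQ hk1
      (fun n hn => by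
        rw [Helper85.BL.ev_swap]
        exact hFz n hn)
    rw [hQ] at hC
    set B := (d : ℝ) * ((b : ℝ) ^ e₂ * H₂ z.2) with hB
    have hB0 : 0 ≤ B := by positivity
    obtain ⟨m, hm⟩ := exists_nat_gt ((|C| + B) / H₁ z.1)
    obtain ⟨N, hmN, hN1, hN⟩ := hC m
    have hN1' : (1 : ℝ) ≤ N := by exact_mod_cast hN1
    have hmN' : (m : ℝ) ≤ N := by exact_mod_cast hmN
    have hp : (N : ℝ) ^ e₂ * N ≤ (N : ℝ) ^ e₁ := by
      rw [← pow_succ]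
      exact pow_le_pow_right₀ hN1' he
    have hp1 : (1 : ℝ) ≤ (N : ℝ) ^ e₂ := one_le_pow₀ hN1'
    have h3 : |C| + B < N * H₁ z.1 := by
      rw [div_lt_iff₀ hpos₁] at hm
      nlinarith
    have h4 : (N : ℝ) ^ e₂ * (|C| + B) < (N : ℝ) ^ e₂ * (N * H₁ z.1) :=
      mul_lt_mul_of_pos_left h3 (by positivity)
    have h5 : (N : ℝ) ^ e₂ * (N * H₁ z.1) ≤ (N : ℝ) ^ e₁ * H₁ z.1 := by
      rw [← mul_assoc]
      exact mul_le_mul_of_nonneg_right hp hpos₁.le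
    have h6 : C ≤ (N : ℝ) ^ e₂ * |C| := by
      have := le_abs_self C
      have := abs_nonneg C
      nlinarith
    have h7 : (d : ℝ) * ((N : ℝ) ^ e₂ * ((b : ℝ) ^ e₂ * H₂ z.2)) = (N : ℝ) ^ e₂ * B := by
      rw [hB]; ring
    rw [h7] at hN
    linarith [mul_add ((N : ℝ) ^ e₂) |C| B]

end Pool.Agent.Helper5.BL
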